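import Pool.Agent.Lib.MP_688fd0_co.ASY.TB.Iface

/-!
TUBE, module MAIN (helper83).
-/

set_option autoImplicit false

namespace Pool.Agent.Lib.MP_688fd0_co.ASY.H83

open Classical
open Pool.Agent.Lib.MP_688fd0_co.LP (IsP Conn Cyc Symm cay)
open Pool.Agent.Lib.MP_688fd0_co.LIN
open Pool.Agent.Lib.MP_688fd0_co.ASY
open Pool.Agent.Lib.MP_688fd0_co.ASY.H85 (Ladder Mid JoinStatement)

universe u

/-- all but the vertices of the ladder stay covered -/
lemma cov_le {V : Type u} [Fintype V] {G H H' : SimpleGraph V} {γ : ℕ → V} {w D q M P L : ℕ} {S R W : ℕ → Finset V}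
    {T : ℕ → V → List V} (tl : TLad G γ w D q M P L S R W T)
    (hc : ∀ v ∈ cov H, ¬ Mid S R 0 M v → v ∉ S 0 → v ∉ S M → v ∈ cov H') :
    (cov H).card + ((cov H').filter (fun v => Mid S R 0 M v)).card ≤
      (cov H').card + ((sl G γ w D P (P + (M + 1) * L)).filter (fun v => v ∈ cov H)).card := by
  have h1 : cov H ⊆ ((cov H').filter (fun v => ¬ Mid S R 0 M v)) ∪
      ((sl G γ w D P (P + (M + 1) * L)).filter (fun v => v ∈ cov H)) := by
    intro v hv
    by_cases hm : Mid S R 0 M v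
    · refine Finset.mem_union_right _ (Finset.mem_filter.2 ⟨?_, hv⟩)
      obtain ⟨h1, h2, h3⟩ := tl.posR v hm
      exact Finset.mem_filter.2 ⟨h1, h2, h3⟩
    · by_cases h0 : v ∈ S 0
      · refine Finset.mem_union_right _ (Finset.mem_filter.2 ⟨?_, hv⟩)
        obtain ⟨h1, h2, h3⟩ := tl.posS 0 (Nat.zero_le _) v h0
        refine Finset.mem_filter.2 ⟨h1, by omega, ?_⟩
        have : (0 + 1) * L ≤ (M + 1) * L := Nat.mul_le_mul_right _ (by omega)
        omega
      · by_cases hM : v ∈ S M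
        · refine Finset.mem_union_right _ (Finset.mem_filter.2 ⟨?_, hv⟩)
          obtain ⟨h1, h2, h3⟩ := tl.posS M le_rfl v hM
          exact Finset.mem_filter.2 ⟨h1, by omega, by omega⟩
        · exact Finset.mem_union_left _ (Finset.mem_filter.2 ⟨hc v hv hm h0 hM, hm⟩)
  have h2 := (Finset.card_le_card h1).trans (Finset.card_union_le _ _)
  have h3 : ((cov H').filter (fun v => Mid S R 0 M v)).card + ((cov H').filter (fun v => ¬ Mid S R 0 M v)).card =
      (cov H').card := Finset.card_filter_add_card_filter_not _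
  omega

/-- the image of the covered inner vertices under `cyc` -/
lemma one_le_image {V : Type u} [Fintype V] {H : SimpleGraph V} {p : V → Prop} {x : V} (hx : x ∈ cov H) (hp : p x) :
    1 ≤ (((cov H).filter (fun v => p v)).image (cyc H)).card :=
  Finset.card_pos.2 ⟨cyc H x, Finset.mem_image_of_mem _ (Finset.mem_filter.2 ⟨hx, hp⟩)⟩

lemma two_le_image {V : Type u} [Fintype V] {H : SimpleGraph V} {p : V → Prop} {x y : V} (hx : x ∈ cov H) (hp : p x)
    (hy : y ∈ cov H) (hpy : p y) (hr : ¬ H.Reachable x y) :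
    2 ≤ (((cov H).filter (fun v => p v)).image (cyc H)).card := by
  have h1 : cyc H x ≠ cyc H y := by
    intro h
    have : y ∈ cyc H x := by rw [h]; exact Finset.mem_filter.2 ⟨Finset.mem_univ _, SimpleGraph.Reachable.refl y⟩
    exact hr (Finset.mem_filter.1 this).2
  have h2 : ({cyc H x, cyc H y} : Finset (Finset V)) ⊆ ((cov H).filter (fun v => p v)).image (cyc H) := by
    intro S hS
    simp only [Finset.mem_insert, Finset.mem_singleton] at hS
    rcases hS with rfl | rfl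
    · exact Finset.mem_image_of_mem _ (Finset.mem_filter.2 ⟨hx, hp⟩)
    · exact Finset.mem_image_of_mem _ (Finset.mem_filter.2 ⟨hy, hpy⟩)
  calc 2 = ({cyc H x, cyc H y} : Finset (Finset V)).card := (Finset.card_pair h1).symm
    _ ≤ _ := Finset.card_le_card h2

lemma contra1 {V : Type u} [Fintype V] {H H' : SimpleGraph V} {l : ℕ} (h : phi l H' ≤ phi l H)
    (h1 : ncyc H' + 1 ≤ ncyc H) (h2 : (cov H).card < (cov H').card + l) : False := by
  unfold phi at h
  have h3 : ((ncyc H' : ℤ) + 1) ≤ ncyc H := by exact_mod_cast h1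
  have h4 : (l : ℤ) * ((ncyc H' : ℤ) + 1) ≤ l * ncyc H := mul_le_mul_of_nonneg_left h3 (Int.natCast_nonneg l)
  have h5 : ((cov H).card : ℤ) < (cov H').card + l := by exact_mod_cast h2
  rw [mul_add, mul_one] at h4
  linarith

lemma contra2 {V : Type u} [Fintype V] {H H' : SimpleGraph V} {l : ℕ} (h : phi l H' ≤ phi l H)
    (h1 : ncyc H' ≤ ncyc H) (h2 : (cov H).card < (cov H').card) : False := by
  unfold phi at h
  have h3 : (ncyc H' : ℤ) ≤ ncyc H := by exact_mod_cast h1
  have h4 : (l : ℤ) * (ncyc H' : ℤ) ≤ l * ncyc H := mul_le_mul_of_nonneg_left h3 (Int.natCast_nonneg l)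
  have h5 : ((cov H).card : ℤ) < (cov H').card := by exact_mod_cast h2
  linarith

/-- common facts -/
lemma nums {B L M1 M w : ℕ} (_ : 1 ≤ w) (hB1 : 32 ≤ B) (hLL : L = (60 * B + 200) * w)
    (hM1 : M1 = 2 * B + 8) (hMM : M = (M1 + 8) * B + 4) : 200 * w ≤ L ∧ 16 * B + M1 ≤ M := by
  refine ⟨by rw [hLL]; exact Nat.mul_le_mul_right _ (by omega), by rw [hMM, hM1]; nlinarith⟩

/-- two cycles close to each other -/
theorem core1 (hN : NearStatement.{u}) (hQ : QexStatement.{u}) (hL : LadexStatement.{u}) (hR : RunsbStatement.{u})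
    (hM : MeetStatement.{u}) (hO : OptStatement.{u})
    {V : Type u} [Fintype V] {G H : SimpleGraph V} {r w D l : ℕ} {γ : ℕ → V}
    (ho : OneDim G r w D γ) (hopt : Opt G l H) (B L M1 M s1 : ℕ) (hB : B = 32 * bn G r) (hLL : L = (60 * B + 200) * w)
    (hM1 : M1 = 2 * B + 8) (hMM : M = (M1 + 8) * B + 4) (hs1 : s1 = (M - M1 + 3) * L) (hb : 1 ≤ bn G r)
    (hl : ((2 * M + 7) * (60 * B + 200) + 4) * B < l)
    {x y : V} {k s : ℕ} (hx : γ k = x) (hs : G.dist x y = s) (hk1 : (M + 5) * L + 200 * w ≤ k)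
    (hk2 : k + (M + 5) * L + 200 * w ≤ D) (hxc : x ∈ cov H) (hyc : y ∈ cov H) (hr : ¬ H.Reachable x y)
    (hcase : s ≤ s1) : False := by
  have hw : 1 ≤ w := by have := ho.w_eq; omega
  have hB1 : 32 ≤ B := by omega
  obtain ⟨hLpos, hM1M⟩ := nums hw hB1 hLL hM1 hMM
  obtain ⟨q, hq⟩ := hQ V G r w D γ ho (by omega)
  rw [← hB] at hq
  have hqB := hq.le
  obtain ⟨n1, n2, n3, n4, n5, n6, n7⟩ := hN V G r w D γ ho
  have hkD : k ≤ D := by omega
  have hhx : G.dist (γ 0) x = k := by rw [← hx]; exact n2 k hkD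
  have hxom : x ∈ om G γ w D := by rw [← hx]; exact n3 k (by omega) (by omega)
  have hlong := (hO V G l).2 H hopt
  have hvol : ∀ a b, a ≤ b → w * (sl G γ w D a b).card ≤ (b - a + 4 * w) * B := by
    intro a b hab; rw [hB]; exact n7 a b hab
  -- both cycles meet one ladder
  have e1 : 100 * w ≤ k - (M + 3) * L := by
    have : (M + 5) * L = (M + 3) * L + 2 * L := by ring
    omega
  have e2 : k - (M + 3) * L + (2 * (M + 3) + 1) * L + 100 * w ≤ D := by
    have h1 : (M + 5) * L = (M + 3) * L + 2 * L := by ring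
    have h2 : (2 * (M + 3) + 1) * L = (M + 3) * L + (M + 3) * L + L := by ring
    omega
  obtain ⟨S, R, W, T, tl⟩ := hL V G r w D γ ho B q hq (k - (M + 3) * L) (2 * (M + 3)) (by omega) e1
    (by rw [← hLL]; exact e2)
  rw [← hLL] at tl
  have hs1L : s1 + 10 * L ≤ (M + 3) * L := by
    rw [hs1]
    have : (M - M1 + 3) * L + 10 * L = (M - M1 + 13) * L := by ring
    rw [this]
    exact Nat.mul_le_mul_right _ (by omega)
  have h3 : (M + 3) * L ≤ k := by
    have : (M + 5) * L = (M + 3) * L + 2 * L := by ring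
    omega
  have h4 : 2 * (M + 3) * L = (M + 3) * L + (M + 3) * L := by ring
  have hxm : Mid S R 0 (2 * (M + 3)) x := tl.cover x hxom (by rw [hhx]; omega) (by rw [hhx, h4]; omega)
  have hM5 : (M + 5) * L = (M + 3) * L + 2 * L := by ring
  obtain ⟨y1, y2, y3⟩ := n4 k s y (by omega) (by omega) (by rw [hx, hs])
  have hym : Mid S R 0 (2 * (M + 3)) y := tl.cover y y1 (by omega) (by rw [h4]; omega)
  have hcard : (sl G γ w D (k - (M + 3) * L) (k - (M + 3) * L + (2 * (M + 3) + 1) * L)).card < l := by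
    have h5 := hvol (k - (M + 3) * L) (k - (M + 3) * L + (2 * (M + 3) + 1) * L) (by omega)
    have h6 : k - (M + 3) * L + (2 * (M + 3) + 1) * L - (k - (M + 3) * L) = (2 * M + 7) * L := by
      have : (2 * (M + 3) + 1) * L = (2 * M + 7) * L := by ring
      omega
    rw [h6, hLL] at h5
    have h7 : ((2 * M + 7) * ((60 * B + 200) * w) + 4 * w) * B = w * (((2 * M + 7) * (60 * B + 200) + 4) * B) := by
      ring
    rw [h7, ← hLL] at h5
    have h8 := Nat.le_of_mul_le_mul_left h5 (by omega)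
    omega
  have hmeet := hM V G H r w D γ ho hopt.1 q (2 * (M + 3)) (k - (M + 3) * L) L S R W T tl e1 e2 l
    (fun v hv => (hlong.1 v hv).1) hcard
  obtain ⟨H', cy, c1, c2, c3, c4, c5, c6, c7⟩ := hR V G H q (2 * (M + 3)) S R W T tl.lad (by omega) tl.closed hopt.1
    hmeet ⟨x, hxc, hxm⟩
  have h9 := two_le_image (p := fun v => Mid S R 0 (2 * (M + 3)) v) hxc hxm hyc hym hr
  have h10 := cov_le tl c4
  have h11 : ((sl G γ w D (k - (M + 3) * L) (k - (M + 3) * L + (2 * (M + 3) + 1) * L)).filter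
      (fun v => v ∈ cov H)).card < l := lt_of_le_of_lt (Finset.card_filter_le _ _) hcard
  have h13 : ncyc H' + 1 ≤ ncyc H := by clear * - c5 h9; omega
  have h14 : (cov H).card < (cov H').card + l := by clear * - h10 h11; omega
  exact contra1 (hopt.2 H' c1) h13 h14

/-- a cycle next to a hole -/
theorem core2 (hN : NearStatement.{u}) (hQ : QexStatement.{u}) (hL : LadexStatement.{u}) (hR : RunsbStatement.{u})
    (hM : MeetStatement.{u}) (hG : GainStatement.{u}) (hO : OptStatement.{u})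
    {V : Type u} [Fintype V] {G H : SimpleGraph V} {r w D l : ℕ} {γ : ℕ → V}
    (ho : OneDim G r w D γ) (hopt : Opt G l H) (B L M1 M s1 : ℕ) (hB : B = 32 * bn G r) (hLL : L = (60 * B + 200) * w)
    (hM1 : M1 = 2 * B + 8) (hMM : M = (M1 + 8) * B + 4) (hs1 : s1 = (M - M1 + 3) * L) (hb : 1 ≤ bn G r)
    (hl : ((2 * M + 7) * (60 * B + 200) + 4) * B < l)
    {x z : V} {k ρ : ℕ} (hx : γ k = x) (hz : G.dist x z = ρ) (hk1 : (M + 5) * L + 200 * w ≤ k)
    (hk2 : k + (M + 5) * L + 200 * w ≤ D) (hxc : x ∈ cov H) (hzc : ∀ u ∈ cov H, ρ ≤ G.dist z u)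
    (hρ1 : s1 ≤ 2 * ρ) (hρ2 : 2 * ρ ≤ s1 + 1) (hzk : k ≤ G.dist (γ 0) z) : False := by
  have hw : 1 ≤ w := by have := ho.w_eq; omega
  have hB1 : 32 ≤ B := by omega
  obtain ⟨hLpos, hM1M⟩ := nums hw hB1 hLL hM1 hMM
  obtain ⟨q, hq⟩ := hQ V G r w D γ ho (by omega)
  rw [← hB] at hq
  have hqB := hq.le
  obtain ⟨n1, n2, n3, n4, n5, n6, n7⟩ := hN V G r w D γ ho
  have hkD : k ≤ D := by omega
  have hhx : G.dist (γ 0) x = k := by rw [← hx]; exact n2 k hkD
  have hxom : x ∈ om G γ w D := by rw [← hx]; exact n3 k (by omega) (by omega)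
  have hlong := (hO V G l).2 H hopt
  have hvol : ∀ a b, a ≤ b → w * (sl G γ w D a b).card ≤ (b - a + 4 * w) * B := by
    intro a b hab; rw [hB]; exact n7 a b hab
  have hs1L' : s1 + 10 * L ≤ (M + 5) * L := by
    rw [hs1]
    have : (M - M1 + 3) * L + 10 * L = (M - M1 + 13) * L := by ring
    rw [this]
    exact Nat.mul_le_mul_right _ (by omega)
  have hconn : G.Connected := ho.vt.conn
  obtain ⟨z1, z2, z3⟩ := n4 k ρ z (by omega) (by omega) (by rw [hx, hz])
  have hzg := (n1 z z1).2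
  have hz4 : ρ ≤ G.dist (γ 0) z - k + 2 * w := by
    have t1 := hconn.dist_triangle (u := x) (v := γ (G.dist (γ 0) z)) (w := z)
    have t2 : G.dist x (γ (G.dist (γ 0) z)) = G.dist (γ 0) z - k := by
      rw [← hx]; exact ho.geo k _ hzk (n1 z z1).1
    rw [SimpleGraph.dist_comm (u := z)] at hzg
    omega
  have hhole : ∀ u ∈ om G γ w D, u ∈ cov H → k + 4 * w < G.dist (γ 0) u → G.dist (γ 0) u + 6 * w < k + 2 * ρ →
      False := by
    intro u hu huc h1 h2
    have h3 := hzc u huc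
    have h4 := (n1 u hu).2
    have t1 := hconn.dist_triangle (u := z) (v := γ (G.dist (γ 0) z)) (w := u)
    have t2 := hconn.dist_triangle (u := γ (G.dist (γ 0) z)) (v := γ (G.dist (γ 0) u)) (w := u)
    rw [SimpleGraph.dist_comm (u := u)] at h4
    rcases le_total (G.dist (γ 0) z) (G.dist (γ 0) u) with h5 | h5
    · have t3 := ho.geo _ _ h5 (n1 u hu).1
      omega
    · have t3 := ho.geo _ _ h5 (n1 z z1).1
      rw [G.dist_comm] at t3
      omega
  have hM1L : M1 * L + L ≤ (M + 5) * L := by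
    have : M1 * L + L = (M1 + 1) * L := by ring
    rw [this]
    exact Nat.mul_le_mul_right _ (by omega)
  have e1 : 100 * w ≤ k - M1 * L := by omega
  have hsplit : (M + 1) * L = M1 * L + (M - M1 + 1) * L := by
    have : M + 1 = M1 + (M - M1 + 1) := by omega
    calc (M + 1) * L = (M1 + (M - M1 + 1)) * L := by rw [← this]
      _ = _ := by ring
  have e2 : k - M1 * L + (M + 1) * L + 100 * w ≤ D := by
    have : (M - M1 + 1) * L ≤ (M + 5) * L := Nat.mul_le_mul_right _ (by omega)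
    omega
  obtain ⟨S, R, W, T, tl⟩ := hL V G r w D γ ho B q hq (k - M1 * L) M (by omega) e1
    (by rw [← hLL]; exact e2)
  rw [← hLL] at tl
  have hML : M * L = M1 * L + (M - M1) * L := by
    have : M = M1 + (M - M1) := by omega
    calc M * L = (M1 + (M - M1)) * L := by rw [← this]
      _ = _ := by ring
  have hMM1 : L ≤ (M - M1) * L := Nat.le_mul_of_pos_left _ (by omega)
  have hxm : Mid S R 0 M x := by
    refine tl.cover x hxom ?_ ?_
    · rw [hhx]
      have : L ≤ M1 * L := Nat.le_mul_of_pos_left _ (by omega)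
      omega
    · rw [hhx]; omega
  have hcard : (sl G γ w D (k - M1 * L) (k - M1 * L + (M + 1) * L)).card < l := by
    have h5 := hvol (k - M1 * L) (k - M1 * L + (M + 1) * L) (by omega)
    have h6 : k - M1 * L + (M + 1) * L - (k - M1 * L) = (M + 1) * L := by omega
    rw [h6, hLL] at h5
    have h7 : ((M + 1) * ((60 * B + 200) * w) + 4 * w) * B = w * (((M + 1) * (60 * B + 200) + 4) * B) := by
      ring
    rw [h7, ← hLL] at h5
    have h8 := Nat.le_of_mul_le_mul_left h5 (by omega)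
    have h9 : ((M + 1) * (60 * B + 200) + 4) * B ≤ ((2 * M + 7) * (60 * B + 200) + 4) * B := by
      apply Nat.mul_le_mul_right
      have : (M + 1) * (60 * B + 200) ≤ (2 * M + 7) * (60 * B + 200) := Nat.mul_le_mul_right _ (by omega)
      omega
    omega
  have hmeet := hM V G H r w D γ ho hopt.1 q M (k - M1 * L) L S R W T tl e1 e2 l
    (fun v hv => (hlong.1 v hv).1) hcard
  obtain ⟨H', cy, c1, c2, c3, c4, c5, c6, c7⟩ := hR V G H q M S R W T tl.lad (by omega) tl.closed hopt.1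
    hmeet ⟨x, hxc, hxm⟩
  have hs1L : (M - M1 + 3) * L = (M - M1 + 1) * L + 2 * L := by ring
  -- covered vertices of the slab are low
  have hlow : ∀ v ∈ om G γ w D, v ∈ cov H → k + 4 * w < G.dist (γ 0) v →
      G.dist (γ 0) v ≤ k - M1 * L + (M + 1) * L → False := by
    intro v hv hvc h1 h2
    refine hhole v hv hvc h1 ?_
    omega
  have hSM : ∀ v ∈ cov H, v ∉ S M := by
    intro v hv hvS
    obtain ⟨p1, p2, p3⟩ := tl.posS M le_rfl v hvS
    exact hlow v p1 hv (by omega) (by omega)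
  obtain ⟨g1, g2⟩ := c7 hSM
  have hgain := hG V G r w D γ ho q M (k - M1 * L) L S R W T tl e1 e2 (by omega) cy c2 c6 g1 g2 (cov H') c3
  have h10 := cov_le tl c4
  have h11 : ((sl G γ w D (k - M1 * L) (k - M1 * L + (M + 1) * L)).filter (fun v => v ∈ cov H)).card ≤
      (sl G γ w D (k - M1 * L) (k + 4 * w)).card := by
    apply Finset.card_le_card
    intro v hv
    obtain ⟨h1, h2⟩ := Finset.mem_filter.1 hv
    obtain ⟨h3, h4, h5⟩ := Finset.mem_filter.1 h1
    refine Finset.mem_filter.2 ⟨h3, h4, ?_⟩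
    by_contra h6
    exact hlow v h3 h2 (by omega) h5
  have h12 := hvol (k - M1 * L) (k + 4 * w) (by omega)
  have h13 : k + 4 * w - (k - M1 * L) + 4 * w = M1 * L + 8 * w := by omega
  have h14 : w * (sl G γ w D (k - M1 * L) (k + 4 * w)).card ≤ w * ((M1 + 1) * (60 * B + 200) * B) := by
    rw [h13] at h12
    refine h12.trans ?_
    have h15 : (M1 * L + 8 * w) ≤ (M1 + 1) * L := by
      have : (M1 + 1) * L = M1 * L + L := by ring
      omega
    calc (M1 * L + 8 * w) * B ≤ (M1 + 1) * L * B := Nat.mul_le_mul_right _ h15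
      _ = w * ((M1 + 1) * (60 * B + 200) * B) := by rw [hLL]; ring
  have h16 := Nat.le_of_mul_le_mul_left h14 (by omega)
  have h17 : (M - 2) * L = ((M1 + 8) * B + 2) * L := by
    have : M - 2 = (M1 + 8) * B + 2 := by omega
    rw [this]
  have h18 : (M1 + 1) * (60 * B + 200) * B + 3 ≤ (M - 2) * L := by
    rw [h17, hLL]
    have h19 : ((M1 + 8) * B + 2) * (60 * B + 200) ≤ ((M1 + 8) * B + 2) * ((60 * B + 200) * w) :=
      Nat.mul_le_mul_left _ (Nat.le_mul_of_pos_right _ hw)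
    refine le_trans ?_ h19
    have e3 : (M1 + 1) * (60 * B + 200) * B = ((M1 + 1) * B) * (60 * B + 200) := by ring
    have e4 : ((M1 + 8) * B + 2) * (60 * B + 200) = ((M1 + 8) * B) * (60 * B + 200) + 2 * (60 * B + 200) := by ring
    rw [e3, e4]
    have e5 : ((M1 + 1) * B) * (60 * B + 200) ≤ ((M1 + 8) * B) * (60 * B + 200) :=
      Nat.mul_le_mul_right _ (Nat.mul_le_mul_right _ (by omega))
    omega
  have h20 : (cov H).card < (cov H').card := by clear * - h10 h11 h16 h18 hgain; omega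
  have h21 := one_le_image (p := fun v => Mid S R 0 M v) hxc hxm
  have h22 : ncyc H' ≤ ncyc H := by clear * - h21 c5; omega
  exact contra2 (hopt.2 H' c1) h22 h20

lemma exists_two {V : Type u} [Fintype V] {H : SimpleGraph V} (h : 2 ≤ ncyc H) :
    ∃ x ∈ cov H, ∃ y ∈ cov H, ¬ H.Reachable x y := by
  obtain ⟨S, hS, S', hS', hne⟩ := Finset.one_lt_card.1 (show 1 < (cycs H).card from h)
  obtain ⟨x, hx, rfl⟩ := Finset.mem_image.1 hS
  obtain ⟨y, hy, rfl⟩ := Finset.mem_image.1 hS'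
  refine ⟨x, hx, y, hy, fun hr => hne ?_⟩
  ext z
  simp only [cyc, Finset.mem_filter, Finset.mem_univ, true_and]
  exact ⟨fun h => hr.symm.trans h, fun h => hr.trans h⟩

/-- a closest pair of covered vertices in different cycles -/
lemma closest {V : Type u} [Fintype V] {G H : SimpleGraph V} (h : 2 ≤ ncyc H) :
    ∃ x ∈ cov H, ∃ y ∈ cov H, ¬ H.Reachable x y ∧
      ∀ u ∈ cov H, ∀ v ∈ cov H, ¬ H.Reachable u v → G.dist x y ≤ G.dist u v := by
  obtain ⟨x, hx, y, hy, hr⟩ := exists_two h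
  let T : Finset (V × V) := Finset.univ.filter (fun p => p.1 ∈ cov H ∧ p.2 ∈ cov H ∧ ¬ H.Reachable p.1 p.2)
  have hT : T.Nonempty := ⟨(x, y), by simp [T, hx, hy, hr]⟩
  obtain ⟨p, hp, hmin⟩ := Finset.exists_min_image T (fun p => G.dist p.1 p.2) hT
  simp only [T, Finset.mem_filter, Finset.mem_univ, true_and] at hp
  refine ⟨p.1, hp.1, p.2, hp.2.1, hp.2.2, fun u hu v hv huv => ?_⟩
  exact hmin (u, v) (by simp [T, hu, hv, huv])

/-- TUBE -/
theorem tube (hN : NearStatement.{u}) (hQ : QexStatement.{u}) (hL : LadexStatement.{u}) (hR : RunsbStatement.{u})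
    (hM : MeetStatement.{u}) (hG : GainStatement.{u}) (hF : FlipStatement.{u}) (hO : OptStatement.{u})
    (hB : BaseStatement.{u}) (hMo : MonoStatement.{u}) (hGe : GeoStatement.{u}) : TubeStatement.{u} := by
  refine ⟨10 ^ 11, 4, ?_⟩
  intro V _ G H hV _ D hD r w l hw hlin hopt hl hDl
  by_contra hn
  push Not at hn
  have hn2 : 2 ≤ ncyc H := hn
  obtain ⟨b1, b2, b3, b4, b5, b6, b7⟩ := hB V G hV
  have hconn := hV.conn
  set b := bn G r with hb
  have hlong := (hO V G l).2 H hopt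
  obtain ⟨x0, hx0, y0, hy0, hr0⟩ := exists_two hn2
  have hlV : l ≤ Fintype.card V := ((hlong.1 x0 hx0).1).trans (Finset.card_le_univ _)
  have hbpos : 1 ≤ b := by rw [← b4]; exact b5 0 r (Nat.zero_le _)
  have hb4 : b ≤ b ^ 4 := Nat.le_self_pow (by norm_num) b
  have hrD : r < D := by
    by_contra h
    push Not at h
    have h1 := b5 D r h
    rw [b6 D hD] at h1
    have h2 : 10 ^ 11 * b ^ 4 ≤ Fintype.card V := hl.trans hlV
    omega
  have hrb : r + 1 ≤ 4 * b := by
    have := hMo V G hV D hD 0 r (Nat.zero_le _) hrD.le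
    rw [b4] at this
    omega
  have hw8 : w ≤ 8 * b := by omega
  have hw1 : 1 ≤ w := by omega
  -- the parameters
  obtain ⟨B, hBB⟩ : ∃ B, B = 32 * b := ⟨_, rfl⟩
  obtain ⟨L, hLL⟩ : ∃ L, L = (60 * B + 200) * w := ⟨_, rfl⟩
  obtain ⟨M1, hM1⟩ : ∃ M1, M1 = 2 * B + 8 := ⟨_, rfl⟩
  obtain ⟨M, hMM⟩ : ∃ M, M = (M1 + 8) * B + 4 := ⟨_, rfl⟩
  obtain ⟨s1, hs1⟩ : ∃ s1, s1 = (M - M1 + 3) * L := ⟨_, rfl⟩
  have f1 : b ≤ b ^ 2 := Nat.le_self_pow (by norm_num) b
  have f2 : L ≤ 16960 * b ^ 2 := by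
    rw [hLL, hBB]
    calc (60 * (32 * b) + 200) * w ≤ (2120 * b) * (8 * b) := Nat.mul_le_mul (by omega) hw8
      _ = 16960 * b ^ 2 := by ring
  have f3 : M ≤ 2564 * b ^ 2 := by
    rw [hMM, hM1, hBB]
    calc (2 * (32 * b) + 8 + 8) * (32 * b) + 4 ≤ (80 * b) * (32 * b) + 4 * b ^ 2 := by
          apply Nat.add_le_add (Nat.mul_le_mul_right _ (by omega)) (by omega)
      _ = 2564 * b ^ 2 := by ring
  have f4 : (M + 5) * L ≤ 43570240 * b ^ 4 := by
    calc (M + 5) * L ≤ (2569 * b ^ 2) * (16960 * b ^ 2) := Nat.mul_le_mul (by omega) f2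
      _ = 43570240 * b ^ 4 := by ring
  have f5 : ((2 * M + 7) * (60 * B + 200) + 4) * B < l := by
    have e1 : (2 * M + 7) * (60 * B + 200) ≤ (5135 * b ^ 2) * (2120 * b) := by
      rw [hBB]; exact Nat.mul_le_mul (by omega) (by omega)
    have e2 : (5135 * b ^ 2) * (2120 * b) = 10886200 * b ^ 3 := by ring
    have e3 : 1 ≤ b ^ 3 := Nat.one_le_pow _ _ hbpos
    calc ((2 * M + 7) * (60 * B + 200) + 4) * B ≤ (10886204 * b ^ 3) * (32 * b) := by
          rw [hBB] at e1 ⊢
          exact Nat.mul_le_mul_right _ (by omega)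
      _ = 348358528 * b ^ 4 := by ring
      _ < 10 ^ 11 * b ^ 4 := by
          have : 1 ≤ b ^ 4 := Nat.one_le_pow _ _ hbpos
          omega
      _ ≤ l := hl
  have f6 : 10 ^ 11 * l ≤ D := by
    refine le_trans (Nat.mul_le_mul_left _ ?_) hDl
    exact Nat.le_self_pow (by norm_num) l
  have f7 : 200 * w ≤ 1600 * b ^ 4 := by omega
  have f8 : 2 * ((M + 5) * L + 200 * w + 1) + 30 * w ≤ D := by
    have e1 : 10 ^ 11 * (10 ^ 11 * b ^ 4) ≤ D := (Nat.mul_le_mul_left _ hl).trans f6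
    have : 1 ≤ b ^ 4 := Nat.one_le_pow _ _ hbpos
    omega
  obtain ⟨x, hx, y, hy, hr, hmin⟩ := closest (G := G) hn2
  obtain ⟨g1, g2⟩ := hGe V G hV D hD
  obtain ⟨γ, hγx, hγ⟩ := g2 D (D / 2) le_rfl (Nat.div_le_self _ _) x
  have ho : OneDim G r w D γ := ⟨hV, hw, hlin, hγ, by omega⟩
  have hk1 : (M + 5) * L + 200 * w ≤ D / 2 := by omega
  have hk2 : D / 2 + (M + 5) * L + 200 * w ≤ D := by omega
  by_cases hcase : G.dist x y ≤ s1
  · exact core1 hN hQ hL hR hM hO ho hopt B L M1 M s1 hBB hLL hM1 hMM hs1 hbpos f5 hγx rfl hk1 hk2 hx hy hr hcase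
  · push Not at hcase
    obtain ⟨ρ, hρ⟩ : ∃ ρ, ρ = (s1 + 1) / 2 := ⟨_, rfl⟩
    obtain ⟨δ, d1, d2, d3⟩ := g1 x y
    have hz : G.dist x (δ ρ) = ρ := by
      have := d3 0 ρ (Nat.zero_le _) (by omega)
      rw [d1] at this
      simpa using this
    have hzy : G.dist (δ ρ) y = G.dist x y - ρ := by
      have := d3 ρ (G.dist x y) (by omega) le_rfl
      rw [d2] at this
      exact this
    have hzc : ∀ u ∈ cov H, ρ ≤ G.dist (δ ρ) u := by
      intro u hu
      by_contra h
      push Not at h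
      by_cases hxu : H.Reachable x u
      · have h1 := hmin u hu y hy (fun h' => hr (hxu.trans h'))
        have h2 := hconn.dist_triangle (u := u) (v := δ ρ) (w := y)
        have h3 : G.dist u (δ ρ) = G.dist (δ ρ) u := SimpleGraph.dist_comm
        omega
      · have h1 := hmin x hx u hu hxu
        have h2 := hconn.dist_triangle (u := x) (v := δ ρ) (w := u)
        omega
    by_cases hup : D / 2 ≤ G.dist (γ 0) (δ ρ)
    · exact core2 hN hQ hL hR hM hG hO ho hopt B L M1 M s1 hBB hLL hM1 hMM hs1 hbpos f5 hγx hz hk1 hk2 hx hzc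
        (by omega) (by omega) hup
    · push Not at hup
      obtain ⟨p1, p2, p3⟩ := hF V G r w D γ ho hD
      have h4 := hN V G r w D γ ho
      have hs1L : s1 ≤ (M + 5) * L := by
        rw [hs1]; exact Nat.mul_le_mul_right _ (by omega)
      obtain ⟨z1, z2, z3⟩ := h4.2.2.2.1 (D / 2) ρ (δ ρ) (by omega) (by omega) (by rw [hγx, hz])
      have h5 := (p3 _ z1).1
      have hup' : D - D / 2 ≤ G.dist ((fun i => γ (D - i)) 0) (δ ρ) := by
        simp only [Nat.sub_zero]
        omega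
      refine core2 hN hQ hL hR hM hG hO p1 hopt B L M1 M s1 hBB hLL hM1 hMM hs1 hbpos f5
        (k := D - D / 2) ?_ hz (by omega) (by omega) hx hzc (by omega) (by omega) hup'
      show γ (D - (D - D / 2)) = x
      have : D - (D - D / 2) = D / 2 := by omega
      rw [this, hγx]

end Pool.Agent.Lib.MP_688fd0_co.ASY.H83
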