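import Pool.Agent.Lib.MP_688fd0_co.ASY.TB.Iface

/-!
TUBE, module MEET (helper83).
-/

set_option autoImplicit false

namespace Pool.Agent.Lib.MP_688fd0_co.ASY.H83

open Classical
open Pool.Agent.Lib.MP_688fd0_co.LP (IsP Conn Cyc Symm cay)
open Pool.Agent.Lib.MP_688fd0_co.LIN
open Pool.Agent.Lib.MP_688fd0_co.ASY
open Pool.Agent.Lib.MP_688fd0_co.ASY.H85 (Ladder Mid JoinStatement)

universe u

theorem meet : MeetStatement.{u} := by
  intro V _ G H r w D γ ho hcf q M P L S R W T tl hP hD l hlong hcard v hv hm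
  by_contra hcon
  push Not at hcon
  have h1 : cyc H v ⊆ sl G γ w D P (P + (M + 1) * L) := by
    intro u hu
    have hru : H.Reachable v u := (Finset.mem_filter.1 hu).2
    by_cases hmu : Mid S R 0 M u
    · obtain ⟨a1, a2, a3⟩ := tl.posR u hmu
      exact Finset.mem_filter.2 ⟨a1, a2, a3⟩
    · by_cases h0 : u ∈ S 0
      · obtain ⟨a1, a2, a3⟩ := tl.posS 0 (Nat.zero_le _) u h0
        have : (0 + 1) * L ≤ (M + 1) * L := Nat.mul_le_mul_right _ (by omega)
        exact Finset.mem_filter.2 ⟨a1, by omega, by omega⟩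
      · have hM := hcon u hru hmu h0
        obtain ⟨a1, a2, a3⟩ := tl.posS M le_rfl u hM
        exact Finset.mem_filter.2 ⟨a1, by omega, by omega⟩
  have h2 := Finset.card_le_card h1
  have h3 := hlong v hv
  omega

end Pool.Agent.Lib.MP_688fd0_co.ASY.H83
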