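import Pool.Agent.Lib.MP_688fd0_co.ASY.All
import Pool.Agent.Lib.MP_688fd0_co.ASY.H83.Main
import Pool.Agent.Lib.MP_688fd0_co.ASY.H83.Meet
import Pool.Agent.Lib.MP_688fd0_co.ASY.H89.Near
import Pool.Agent.Lib.MP_688fd0_co.ASY.N43.Qex
import Pool.Agent.Lib.MP_688fd0_co.ASY.H91.Loc
import Pool.Agent.Lib.MP_688fd0_co.ASY.H20.Trans
import Pool.Agent.Lib.MP_688fd0_co.ASY.H32.Ladex
import Pool.Agent.Lib.MP_688fd0_co.ASY.H82.Runsa
import Pool.Agent.Lib.MP_688fd0_co.ASY.H5.Runsb
import Pool.Agent.Lib.MP_688fd0_co.ASY.H28.MeetGain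
import Pool.Agent.Lib.MP_688fd0_co.ASY.H63.HoleFlip
import Pool.Agent.Lib.MP_688fd0_co.ASY.H85.Join

/-!
TUBE: assembly (proof by helper85 and helper83; modules by helper5, 20, 28, 32, 43, 61, 63, 82, 83, 85, 89, 91), and the
unconditional asymptotic theorems.
-/

set_option autoImplicit false

namespace Pool.Agent.Lib.MP_688fd0_co.ASY

open Pool.Agent.Lib.MP_688fd0_co.LIN

universe u

theorem all_tube : TubeStatement.{u} :=
  H83.tube H89.near (N43.qex all_omega H89.near (H91.loc H89.near) (H20.trans H89.near)) (H32.ladex H89.near)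
    (H5.runsb H82.runsa H85.join) H83.meet H28.gain H63.flip H15.opt H89.base H89.mono H89.geo

/-- (1 - eps)|V| vertices on one cycle, from a family of long cycles (all vertex-transitive graphs). -/
theorem tube_t2vu : T2vuStatement.{u} := all_t2vu all_tube

/-- (1 - eps)|V| vertices on one cycle in every connected vertex-transitive graph of degree at least `d eps`. -/
theorem tube_t3vu : T3vuStatement.{u} := all_t3vu all_tube

end Pool.Agent.Lib.MP_688fd0_co.ASY
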